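import Pool.Agent.R475.SH.Rec

/-!
# A homogeneous zero-dimensional space which is not σ-homogeneous with strongly homogeneous
witnesses

There is (in ZFC) a homogeneous subspace of the Cantor set which is not the union of countably many
strongly homogeneous subspaces.
-/

set_option autoImplicit false

namespace Pool.Agent.Results.MP_999952_gt.HomogeneousNotSigmaStrong

open Set Cardinal Topology MeasureTheory Pool.Agent.H3R3.Rigid Pool.Agent.Y443.BR
open Pool.Agent.R475.SH
open scoped ENNReal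

/-- A space `Y` is homogeneous if every point can be moved to every other point by a homeomorphism
of `Y` onto itself. -/
def Homogeneous (Y : Type) [TopologicalSpace Y] : Prop :=
  ∀ x y : Y, ∃ h : Y ≃ₜ Y, h x = y

/-- A non-empty space is strongly homogeneous if it is homeomorphic to each of its non-empty clopen
subspaces. -/
def StronglyHomogeneous (Y : Type) [TopologicalSpace Y] : Prop :=
  Nonempty Y ∧ ∀ U : Set Y, IsClopen U → U.Nonempty → Nonempty (U ≃ₜ Y)

/-- A space is `σ`-homogeneous if it is the union of countably many homogeneous subspaces. -/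
def SigmaHomogeneous (X : Type) [TopologicalSpace X] : Prop :=
  ∃ A : ℕ → Set X, (⋃ n, A n) = Set.univ ∧ ∀ n, Homogeneous (A n)

/-- A space is `σ`-homogeneous with strongly homogeneous witnesses if it is the union of countably
many strongly homogeneous subspaces. -/
def SigmaStronglyHomogeneous (X : Type) [TopologicalSpace X] : Prop :=
  ∃ A : ℕ → Set X, (⋃ n, A n) = Set.univ ∧ ∀ n, StronglyHomogeneous (A n)

lemma isClosed_agr (k : ℕ) (x : C) : IsClosed {y : C | Agr k x y} := by
  have h : {y : C | Agr k x y} = ⋂ i ∈ Set.Iio k, {y : C | y i = x i} := by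
    ext y
    simp [Agr]
  rw [h]
  exact isClosed_biInter fun i _ => isClosed_eq (continuous_apply i) continuous_const

/-- **No piece of positive size is strongly homogeneous.** -/
lemma no_piece {X Z : Set C} (hX : ∀ F F' : C → C, Measurable F → Measurable F' →
      #{x | x ∈ X ∧ F x ∈ X ∧ F' (F x) = x ∧ ¬ E0 x (F x)} < 𝔠)
    (hZX : Z ⊆ X) (hZ : ∀ N : Set C, #N < 𝔠 → mu (Z \ N) ≠ 0) : ¬ StronglyHomogeneous Z := by
  classical
  rintro ⟨-, hst⟩
  -- an optimal set
  obtain ⟨N₀, hN₀, hmin⟩ : ∃ N₀ : Set C, #N₀ < 𝔠 ∧ ∀ N : Set C, #N < 𝔠 →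
      mu (Z \ N₀) ≤ mu (Z \ N) := by
    let S : Set ℝ≥0∞ := {a | ∃ N : Set C, #N < 𝔠 ∧ a = mu (Z \ N)}
    have hS : S.Nonempty := ⟨_, ∅, by rw [mk_eq_zero]; exact aleph0_pos.trans aleph0_lt_continuum,
      rfl⟩
    obtain ⟨u, -, hu, huS⟩ := exists_seq_tendsto_sInf hS (OrderBot.bddBelow S)
    choose N hN huN using huS
    refine ⟨⋃ n, N n, mk_iUnion_lt hN, fun N' hN' => ?_⟩
    refine le_trans ?_ (sInf_le ⟨N', hN', rfl⟩ : sInf S ≤ mu (Z \ N'))
    refine ge_of_tendsto' hu fun n => ?_
    rw [huN n]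
    exact measure_mono (diff_subset_diff_right (subset_iUnion N n))
  have hpos : 0 < mu (Z \ N₀) := pos_iff_ne_zero.2 (hZ N₀ hN₀)
  obtain ⟨k, hk⟩ := exists_half_pow_lt hpos
  -- a small piece which is not negligible
  obtain ⟨s, hs⟩ : ∃ s : Fin k → Bool, ∀ N : Set C, #N < 𝔠 →
      mu ((Z ∩ {y : C | ∀ i : Fin k, y i = s i}) \ N) ≠ 0 := by
    by_contra hc
    push Not at hc
    choose N hN hN0 using hc
    have h1 : #(⋃ s, N s : Set C) < 𝔠 := by
      refine (mk_iUnion_le _).trans_lt ?_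
      refine mul_lt_of_lt aleph0_le_continuum ?_ ?_
      · exact (lt_aleph0_of_finite _).trans aleph0_lt_continuum
      · refine iSup_lt_of_lt_cof_ord ?_ hN
        exact (lt_aleph0_of_finite _).trans aleph0_lt_cof
    apply hZ _ h1
    have h2 : Z \ (⋃ s, N s) ⊆ ⋃ s : Fin k → Bool,
        (Z ∩ {y : C | ∀ i : Fin k, y i = s i}) \ N s := by
      rintro y ⟨hy, hyN⟩
      refine mem_iUnion.2 ⟨fun i => y i, ⟨hy, fun _ => rfl⟩, fun h => hyN ?_⟩
      exact mem_iUnion.2 ⟨_, h⟩
    exact measure_mono_null h2 (measure_iUnion_null hN0)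
  let V : Set C := {y : C | ∀ i : Fin k, y i = s i}
  let p : C := fun n => if h : n < k then s ⟨n, h⟩ else false
  have hV : V = {y : C | Agr k p y} := by
    ext y
    constructor
    · intro h i hi
      rw [h ⟨i, hi⟩]
      simp [p, hi]
    · intro h i
      rw [h i i.2]
      simp [p]
  have hVc : IsClopen V := by
    rw [hV]; exact ⟨isClosed_agr k p, isOpen_agr k p⟩
  have hVm : mu V < mu (Z \ N₀) := by
    rw [hV, mu_cyl]; exact hk
  let U : Set Z := Subtype.val ⁻¹' V
  have hU : IsClopen U := hVc.preimage continuous_subtype_val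
  have hUn : U.Nonempty := by
    by_contra h
    rw [not_nonempty_iff_eq_empty] at h
    apply hs ∅ (by rw [mk_eq_zero]; exact aleph0_pos.trans aleph0_lt_continuum)
    have h1 : (Z ∩ {y : C | ∀ i : Fin k, y i = s i}) = ∅ := by
      rw [eq_empty_iff_forall_notMem]
      rintro y ⟨hy, hy'⟩
      have h2 : (⟨y, hy⟩ : Z) ∈ U := hy'
      rw [h] at h2
      exact h2
    rw [h1, empty_diff, measure_empty]
  obtain ⟨h⟩ := hst U hU hUn
  -- Borel extensions
  obtain ⟨F, hF, hFh⟩ := exists_extension (X := Z) (fun z => ((h.symm z).1.1 : C))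
    (measurable_subtype_coe.comp (measurable_subtype_coe.comp h.symm.continuous.measurable))
  have hg : Continuous (fun z : (Z ∩ V : Set C) => (h ⟨⟨z.1, z.2.1⟩, z.2.2⟩ : C)) :=
    continuous_subtype_val.comp (h.continuous.comp (by fun_prop))
  obtain ⟨F', hF', hFh'⟩ := exists_extension (X := Z ∩ V) _ hg.measurable
  have hFF : ∀ z ∈ Z, F z ∈ Z ∩ V ∧ F' (F z) = z := by
    intro z hz
    have h1 := hFh ⟨z, hz⟩
    simp only at h1
    have h2 : F z ∈ Z ∩ V := by
      rw [h1]
      exact ⟨(h.symm ⟨z, hz⟩).1.2, (h.symm ⟨z, hz⟩).2⟩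
    refine ⟨h2, ?_⟩
    have h3 := hFh' ⟨F z, h2⟩
    simp only at h3
    rw [h3]
    have h4 : (⟨⟨F z, h2.1⟩, h2.2⟩ : U) = h.symm ⟨z, hz⟩ := Subtype.ext (Subtype.ext h1)
    rw [h4, Homeomorph.apply_symm_apply]
  -- the comparison
  let N₁ : Set C := {x | x ∈ X ∧ F x ∈ X ∧ F' (F x) = x ∧ ¬ E0 x (F x)}
  have h1 := hmin _ (hX F F' hF hF')
  have h2 : mu (F '' (Z \ N₁)) = mu (Z \ N₁) := by
    refine mu_image_eq hF hF' fun x hx => ⟨(hFF x hx.1).2, ?_⟩
    by_contra hc
    exact hx.2 ⟨hZX hx.1, hZX (hFF x hx.1).1.1, (hFF x hx.1).2, hc⟩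
  have h3 : mu (F '' (Z \ N₁)) ≤ mu V := by
    refine measure_mono ?_
    rintro _ ⟨x, hx, rfl⟩
    exact (hFF x hx.1).1.2
  rw [h2] at h3
  exact absurd (h1.trans h3) (not_le.2 hVm)

/-- **Main theorem.**  There is a zero-dimensional separable metrizable space, a subspace of the
Cantor set, which is homogeneous (so `σ`-homogeneous) and which is not the union of countably many
strongly homogeneous subspaces. -/
theorem result :
    ∃ X : Set (ℕ → Bool),
      TopologicalSpace.SeparableSpace X ∧ TopologicalSpace.MetrizableSpace X ∧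
      TopologicalSpace.IsTopologicalBasis {U : Set X | IsClopen U} ∧
      Homogeneous X ∧ SigmaHomogeneous X ∧ ¬ SigmaStronglyHomogeneous X := by
  obtain ⟨X, hX0, hXb, hXi⟩ := exists_set
  have hhom : Homogeneous X := by
    intro x y
    have hiff : ∀ p, p ∈ X ↔ swapHomeo x.1 y.1 p ∈ X := fun p => mem_swap_iff hX0 x.2 y.2 p
    have hiff' : ∀ p, p ∈ X → (swapHomeo x.1 y.1).symm p ∈ X := by
      intro p hp
      rw [hiff]; simpa using hp
    refine ⟨{ toFun := fun p => ⟨swapHomeo x.1 y.1 p.1, (hiff _).1 p.2⟩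
              invFun := fun p => ⟨(swapHomeo x.1 y.1).symm p.1, hiff' _ p.2⟩
              left_inv := fun p => Subtype.ext (by simp)
              right_inv := fun p => Subtype.ext (by simp)
              continuous_toFun := ?_
              continuous_invFun := ?_ }, ?_⟩
    · exact ((swapHomeo x.1 y.1).continuous.comp continuous_subtype_val).subtype_mk _
    · exact ((swapHomeo x.1 y.1).symm.continuous.comp continuous_subtype_val).subtype_mk _
    · exact Subtype.ext (swap_self _ _)
  refine ⟨X, inferInstance, inferInstance, ?_, hhom, ?_, ?_⟩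
  · refine TopologicalSpace.isTopologicalBasis_of_isOpen_of_nhds (fun s hs => hs.2) ?_
    intro x U hxU hU
    obtain ⟨V, hV, rfl⟩ := isOpen_induced_iff.1 hU
    obtain ⟨k, hk⟩ := exists_agr_of_isOpen hV hxU
    refine ⟨{y : X | Agr k x.1 y.1}, ⟨?_, ?_⟩, agr_refl _ _, fun y hy => hk _ hy⟩
    · exact (isClosed_agr k x.1).preimage continuous_subtype_val
    · exact (isOpen_agr k x.1).preimage continuous_subtype_val
  · refine ⟨fun _ => Set.univ, iUnion_const _, fun _ x y => ?_⟩
    obtain ⟨h, hh⟩ := hhom x.1 y.1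
    refine ⟨((Homeomorph.Set.univ X).trans h).trans (Homeomorph.Set.univ X).symm, ?_⟩
    exact Subtype.ext hh
  · rintro ⟨A, hA, hAs⟩
    -- one of the pieces is not negligible
    obtain ⟨n, hn⟩ : ∃ n, ∀ N : Set C, #N < 𝔠 → mu ((Subtype.val '' A n) \ N) ≠ 0 := by
      by_contra hc
      push Not at hc
      choose N hN hN0 using hc
      have h1 := mk_iUnion_lt hN
      have h2 : mu (X \ ⋃ n, N n) = 0 := by
        have h3 : X \ (⋃ n, N n) ⊆ ⋃ n, (Subtype.val '' A n) \ N n := by
          rintro y ⟨hy, hyN⟩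
          have h4 : (⟨y, hy⟩ : X) ∈ ⋃ n, A n := by rw [hA]; exact mem_univ _
          obtain ⟨n, hn⟩ := mem_iUnion.1 h4
          exact mem_iUnion.2 ⟨n, ⟨_, hn, rfl⟩, fun h => hyN (mem_iUnion.2 ⟨n, h⟩)⟩
        exact measure_mono_null h3 (measure_iUnion_null hN0)
      let B := toMeasurable mu (X \ ⋃ n, N n)
      have hB : mu Bᶜ ≠ 0 := by
        rw [prob_compl_eq_one_sub (measurableSet_toMeasurable _ _), measure_toMeasurable, h2]
        simp
      have h3 := hXb Bᶜ (measurableSet_toMeasurable _ _).compl hB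
      have h4 : Bᶜ ∩ X ⊆ ⋃ n, N n := by
        rintro y ⟨hy, hyX⟩
        by_contra hyN
        exact hy (subset_toMeasurable _ _ ⟨hyX, hyN⟩)
      exact absurd (h3.trans (mk_le_mk_of_subset h4)) (not_le.2 h1)
    have h1 : ¬ StronglyHomogeneous (Subtype.val '' A n : Set C) :=
      no_piece hXi (by rintro _ ⟨x, -, rfl⟩; exact x.2) hn
    apply h1
    -- transport to the subspace of the Cantor set
    let e : (A n) ≃ₜ (Subtype.val '' A n : Set C) :=
      (Topology.IsEmbedding.subtypeVal.homeomorphImage (A n))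
    obtain ⟨⟨a⟩, h2⟩ := hAs n
    refine ⟨⟨e a⟩, fun U hU hUn => ?_⟩
    obtain ⟨h3⟩ := h2 (e ⁻¹' U) (hU.preimage e.continuous) (by
      obtain ⟨u, hu⟩ := hUn
      exact ⟨e.symm u, by simpa using hu⟩)
    have e' : (e ⁻¹' U : Set (A n)) ≃ₜ U :=
      e.sets (by rfl)
    exact ⟨(e'.symm.trans h3).trans e⟩

end Pool.Agent.Results.MP_999952_gt.HomogeneousNotSigmaStrong
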